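import Pool.Agent.H828R3.GP.Col
import Pool.Agent.H499R2.LT.R6

set_option autoImplicit false

/-! The density of the integers with `l(n) > n`: existence, and a power saving given a verification of
the `3x+1` conjecture up to `y`. -/

namespace Pool.Agent.Results.MP_e43fce_nt.ExceptionDensity

open Filter Topology

/-- the Collatz function -/
def C (n : ℕ) : ℕ := if n % 2 = 0 then n / 2 else 3 * n + 1

/-- `l(n) ≤ t`: one of the iterates `C^(k)(n)` with `k ≤ t` is `1` -/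
def StopsBy (t : ℝ) (n : ℕ) : Prop := ∃ k : ℕ, (k : ℝ) ≤ t ∧ C^[k] n = 1

/-- the positive integers with the property `P` have the natural density `δ` -/
def HasDensity (P : ℕ → Prop) (δ : ℝ) : Prop :=
  Tendsto (fun N : ℕ => ({n : ℕ | 1 ≤ n ∧ n ≤ N ∧ P n}.ncard : ℝ) / N) atTop (𝓝 δ)

theorem fin_le (P : ℕ → Prop) (N : ℕ) : {n : ℕ | 1 ≤ n ∧ n ≤ N ∧ P n}.Finite :=
  (Set.finite_Icc 1 N).subset fun _ h => ⟨h.1, h.2.1⟩

theorem dens_compl {P : ℕ → Prop} {δ : ℝ} (h : HasDensity P δ) : HasDensity (fun n => ¬ P n) (1 - δ) := by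
  unfold HasDensity at h ⊢
  refine (h.const_sub 1).congr' ?_
  filter_upwards [eventually_ge_atTop 1] with N hN
  have hN0 : (N : ℝ) ≠ 0 := by
    have : N ≠ 0 := by omega
    exact_mod_cast this
  have h1 : {n : ℕ | 1 ≤ n ∧ n ≤ N ∧ P n} ∪ {n : ℕ | 1 ≤ n ∧ n ≤ N ∧ ¬ P n} =
      ((Finset.Icc 1 N : Finset ℕ) : Set ℕ) := by
    ext n
    rw [Finset.coe_Icc, Set.mem_Icc, Set.mem_union]
    constructor
    · rintro (h | h) <;> exact ⟨h.1, h.2.1⟩
    · intro h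
      by_cases hP : P n
      · exact Or.inl ⟨h.1, h.2, hP⟩
      · exact Or.inr ⟨h.1, h.2, hP⟩
  have h2 : Disjoint {n : ℕ | 1 ≤ n ∧ n ≤ N ∧ P n} {n : ℕ | 1 ≤ n ∧ n ≤ N ∧ ¬ P n} := by
    rw [Set.disjoint_left]
    rintro n h h'
    exact h'.2.2 h.2.2
  have h3 := Set.ncard_union_eq h2 (fin_le _ N) (fin_le _ N)
  rw [h1, Set.ncard_coe_finset, Nat.card_Icc, Nat.add_sub_cancel] at h3
  have h4 : (N : ℝ) = ({n : ℕ | 1 ≤ n ∧ n ≤ N ∧ P n}.ncard : ℝ) +
      ({n : ℕ | 1 ≤ n ∧ n ≤ N ∧ ¬ P n}.ncard : ℝ) := by exact_mod_cast h3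
  rw [eq_div_iff hN0, sub_mul, one_mul, div_mul_cancel₀ _ hN0]
  linarith

/-- sandwich -/
theorem dens_of {Q P U : ℕ → Prop} {δ : ℝ} (hU : HasDensity U δ) (hPU : ∀ n, P n → U n)
    (hlow : ∀ ε : ℝ, 0 < ε → ∃ (Q : ℕ → Prop) (δ' : ℝ), HasDensity Q δ' ∧ δ - ε < δ' ∧
      ∀ᶠ n : ℕ in atTop, Q n → P n) : HasDensity P δ := by
  unfold HasDensity at hU ⊢
  rw [Metric.tendsto_atTop] at hU ⊢
  intro ε hε
  obtain ⟨N1, h1⟩ := hU ε hε
  obtain ⟨Q, δ', hQ, hδ', hev⟩ := hlow (ε / 3) (by positivity)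
  unfold HasDensity at hQ
  rw [Metric.tendsto_atTop] at hQ
  obtain ⟨N2, h2⟩ := hQ (ε / 3) (by positivity)
  obtain ⟨n0, hn0⟩ := eventually_atTop.1 hev
  obtain ⟨N3, hN3⟩ := exists_nat_gt (3 * ((n0 : ℝ) + 1) / ε)
  refine ⟨max (max N1 N2) (max N3 1), fun N hN => ?_⟩
  have hN1 : N1 ≤ N := ((le_max_left _ _).trans (le_max_left _ _)).trans hN
  have hN2 : N2 ≤ N := ((le_max_right _ _).trans (le_max_left _ _)).trans hN
  have hN3' : N3 ≤ N := ((le_max_left _ _).trans (le_max_right _ _)).trans hN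
  have hN4 : 1 ≤ N := ((le_max_right _ _).trans (le_max_right _ _)).trans hN
  have hNR : (0 : ℝ) < N := by exact_mod_cast hN4
  have a1 := h1 N hN1
  have a2 := h2 N hN2
  rw [Real.dist_eq, abs_lt] at a1 a2 ⊢
  have b1 : ({n : ℕ | 1 ≤ n ∧ n ≤ N ∧ P n}.ncard : ℝ) ≤ ({n : ℕ | 1 ≤ n ∧ n ≤ N ∧ U n}.ncard : ℝ) := by
    have hsub : {n : ℕ | 1 ≤ n ∧ n ≤ N ∧ P n} ⊆ {n : ℕ | 1 ≤ n ∧ n ≤ N ∧ U n} := by
      rintro n ⟨h3, h4, h5⟩
      exact ⟨h3, h4, hPU n h5⟩
    exact_mod_cast Set.ncard_le_ncard hsub (fin_le _ N)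
  have b2 : ({n : ℕ | 1 ≤ n ∧ n ≤ N ∧ Q n}.ncard : ℝ) ≤ ({n : ℕ | 1 ≤ n ∧ n ≤ N ∧ P n}.ncard : ℝ) +
      (n0 + 1) := by
    have hsub : {n : ℕ | 1 ≤ n ∧ n ≤ N ∧ Q n} ⊆ {n : ℕ | 1 ≤ n ∧ n ≤ N ∧ P n} ∪
        ((Finset.range (n0 + 1) : Finset ℕ) : Set ℕ) := by
      rintro n ⟨h3, h4, h5⟩
      rcases Nat.lt_or_ge n n0 with h6 | h6
      · right
        rw [Finset.coe_range, Set.mem_Iio]; omega
      · left
        exact ⟨h3, h4, hn0 n h6 h5⟩
    have h3 := (Set.ncard_le_ncard hsub ((fin_le _ N).union (Finset.finite_toSet _))).trans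
      (Set.ncard_union_le _ _)
    rw [Set.ncard_coe_finset, Finset.card_range] at h3
    exact_mod_cast h3
  have b3 : ((n0 : ℝ) + 1) / N < ε / 3 := by
    rw [div_lt_iff₀ hNR]
    have h3 : 3 * ((n0 : ℝ) + 1) / ε < N := lt_of_lt_of_le hN3 (by exact_mod_cast hN3')
    rw [div_lt_iff₀ hε] at h3
    linarith
  have c1 : ({n : ℕ | 1 ≤ n ∧ n ≤ N ∧ P n}.ncard : ℝ) / N ≤ ({n : ℕ | 1 ≤ n ∧ n ≤ N ∧ U n}.ncard : ℝ) / N :=
    div_le_div_of_nonneg_right b1 hNR.le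
  have c2 : ({n : ℕ | 1 ≤ n ∧ n ≤ N ∧ Q n}.ncard : ℝ) / N ≤ ({n : ℕ | 1 ≤ n ∧ n ≤ N ∧ P n}.ncard : ℝ) / N +
      ((n0 : ℝ) + 1) / N := by
    rw [← add_div]; exact div_le_div_of_nonneg_right b2 hNR.le
  constructor
  · linarith [a2.1]
  · linarith [a1.2]

/-- the normal range is below `K log n` for `K > 3 / log (4/3)` -/
theorem bound_le {K : ℝ} (hK : 3 / Real.log (4 / 3) < K) (x : ℝ) : ∀ᶠ n : ℕ in atTop,
    3 / Real.log (4 / 3) * Real.log n + x * (Real.log 6 * Real.sqrt (2 * Real.log n / Real.log (4 / 3) ^ 3))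
      ≤ K * Real.log n := by
  set κ := 3 / Real.log (4 / 3) with hκ
  have hL : 0 < Real.log (4 / 3) := Real.log_pos (by norm_num)
  have h6 : 0 < Real.log 6 := Real.log_pos (by norm_num)
  set e := K - κ with he
  have he0 : 0 < e := by linarith
  set M := |x| * Real.log 6 with hM
  have hM0 : 0 ≤ M := by positivity
  set A := 2 / Real.log (4 / 3) ^ 3 with hA
  have hA0 : 0 < A := by positivity
  have ht : Tendsto (fun n : ℕ => Real.log (n : ℝ)) atTop atTop :=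
    Real.tendsto_log_atTop.comp tendsto_natCast_atTop_atTop
  filter_upwards [ht.eventually_ge_atTop (M ^ 2 * A / e ^ 2), ht.eventually_ge_atTop 0] with n h1 h2
  set t := Real.log (n : ℝ) with htt
  have h3 : 2 * t / Real.log (4 / 3) ^ 3 = A * t := by rw [hA]; ring
  rw [h3]
  have h4 : M * Real.sqrt (A * t) ≤ e * t := by
    have h5 : M * Real.sqrt (A * t) = Real.sqrt (M ^ 2 * (A * t)) := by
      rw [Real.sqrt_mul (sq_nonneg M) (A * t), Real.sqrt_sq hM0]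
    rw [h5]
    apply Real.sqrt_le_iff.2
    refine ⟨by positivity, ?_⟩
    rw [div_le_iff₀ (by positivity)] at h1
    nlinarith
  have h5 : x * (Real.log 6 * Real.sqrt (A * t)) ≤ M * Real.sqrt (A * t) := by
    rw [hM, mul_assoc]
    apply mul_le_mul_of_nonneg_right (le_abs_self x) (by positivity)
  have h7 : K * t = κ * t + e * t := by rw [he]; ring
  linarith

/-- `1 - H(log_3 2) > 0.049`, `H` the binary entropy in bits. The integers with `l(n) > n` have a natural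
density `δ < 1`; it is `0` exactly when every positive integer reaches `1`; for every `K > 3 / log (4/3)`
it is also the density of the integers with `l(n) > K log n`; and for every `0 < c < 1 - H(log_3 2)` there is
`A` such that `δ ≤ A / y^c` for every `y ≥ 1` for which all positive integers `m ≤ y` reach `1`. -/
theorem result : 0.049 < 1 - Real.binEntropy (Real.log 2 / Real.log 3) / Real.log 2 ∧
    ∃ δ : ℝ, 0 ≤ δ ∧ δ < 1 ∧ HasDensity (fun n => ¬ StopsBy n n) δ ∧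
      (δ = 0 ↔ ∀ n : ℕ, 1 ≤ n → ∃ k, C^[k] n = 1) ∧
      (∀ K : ℝ, 3 / Real.log (4 / 3) < K → HasDensity (fun n => ¬ StopsBy (K * Real.log n) n) δ) ∧
      ∀ c : ℝ, 0 < c → c < 1 - Real.binEntropy (Real.log 2 / Real.log 3) / Real.log 2 →
        ∃ A : ℝ, 0 < A ∧ ∀ y : ℝ, 1 ≤ y → (∀ m : ℕ, 1 ≤ m → (m : ℝ) ≤ y → ∃ k, C^[k] m = 1) →
          δ ≤ A / y ^ c := by
  refine ⟨by have := Pool.Agent.H319R2.beta_lt; unfold Pool.Agent.H319R2.beta at this; linarith, ?_⟩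
  obtain ⟨δ, hδ0, hδ1, hiff, hB, hlaw⟩ := Pool.Agent.H499R2.LT.law_oneC
  have hB' : HasDensity (fun n => ∃ k, C^[k] n = 1) δ := hB
  have key : ∀ K : ℝ, 3 / Real.log (4 / 3) < K → ∀ g : ℕ → ℝ, (∀ᶠ n : ℕ in atTop, K * Real.log n ≤ g n) →
      HasDensity (fun n => StopsBy (g n) n) δ := by
    intro K hK g hg
    apply dens_of (Q := fun _ => True) hB' (fun n ⟨k, _, hk⟩ => ⟨k, hk⟩)
    intro ε hε
    have hPhi := ProbabilityTheory.tendsto_cdf_atTop (ProbabilityTheory.gaussianReal 0 1)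
    have h1 : Tendsto (fun x => δ * ProbabilityTheory.cdf (ProbabilityTheory.gaussianReal 0 1) x) atTop
        (𝓝 (δ * 1)) := hPhi.const_mul δ
    rw [mul_one] at h1
    obtain ⟨x, hx⟩ := (h1.eventually (lt_mem_nhds (by linarith : δ - ε < δ))).exists
    have h2 := hlaw 1 0 0 le_rfl x
    refine ⟨_, _, h2, ?_, ?_⟩
    · push_cast
      rw [one_pow, div_one]
      exact hx
    · filter_upwards [bound_le hK x, hg] with n h3 h4
      rintro ⟨k, hk, ⟨hk1, _⟩, _⟩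
      exact ⟨k, hk.trans (h3.trans h4), hk1⟩
  refine ⟨1 - δ, by linarith, by linarith, dens_compl ?_, ?_, fun K hK => dens_compl ?_, ?_⟩
  · apply key (3 / Real.log (4 / 3) + 1) (by linarith) (fun n => (n : ℝ))
    have h1 := (Real.isLittleO_log_id_atTop.bound
      (c := 1 / (3 / Real.log (4 / 3) + 1)) (by
        have hL : 0 < Real.log (4 / 3) := Real.log_pos (by norm_num)
        positivity))
    have h2 := tendsto_natCast_atTop_atTop (R := ℝ) |>.eventually h1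
    filter_upwards [h2, eventually_ge_atTop 1] with n h3 h4
    have hL : 0 < Real.log (4 / 3) := Real.log_pos (by norm_num)
    have hn : (0 : ℝ) < n := by exact_mod_cast h4
    rw [Real.norm_eq_abs, Real.norm_eq_abs, id, abs_of_pos hn, div_mul_eq_mul_div, one_mul,
      le_div_iff₀ (by positivity)] at h3
    have h5 := le_abs_self (Real.log (n : ℝ))
    nlinarith [mul_le_mul_of_nonneg_right h5 (by positivity : 0 ≤ 3 / Real.log (4 / 3) + 1)]
  · constructor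
    · intro h
      exact hiff.1 (by linarith)
    · intro h
      have := hiff.2 h
      linarith
  · exact key K hK (fun n => K * Real.log n) (Eventually.of_forall fun n => le_refl _)
  · intro c hc0 hc
    obtain ⟨A, hA, h⟩ := Pool.Agent.H828R3.GP.col_saving hc0 hc
    refine ⟨A, hA, fun y hy hver => ?_⟩
    have hyc : 0 < y ^ c := Real.rpow_pos_of_pos (by linarith) _
    have h1 := dens_compl hB'
    unfold HasDensity at h1
    apply le_of_tendsto h1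
    filter_upwards [eventually_ge_atTop 1] with N hN
    have hNR : (0 : ℝ) < N := by exact_mod_cast hN
    rw [div_le_iff₀ hNR]
    have h2 := h N y (by exact_mod_cast hN) hy
    have hpos : ∀ k n : ℕ, 1 ≤ n → 1 ≤ C^[k] n := by
      intro k
      induction k with
      | zero => intro n hn; simpa using hn
      | succ k ih =>
        intro n hn
        rw [Function.iterate_succ_apply]
        apply ih
        unfold C
        split_ifs <;> omega
    have hsub : {n : ℕ | 1 ≤ n ∧ n ≤ N ∧ ¬ ∃ k, C^[k] n = 1} ⊆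
        {n : ℕ | 1 ≤ n ∧ (n : ℝ) ≤ N ∧ ∀ k : ℕ, y < ((Pool.Agent.H499R2.ND.Cz^[k] n : ℕ) : ℝ)} := by
      rintro n ⟨h3, h4, h5⟩
      refine ⟨h3, by exact_mod_cast h4, fun k => ?_⟩
      by_contra hcon
      push Not at hcon
      have hcon' : ((C^[k] n : ℕ) : ℝ) ≤ y := hcon
      obtain ⟨j, hj⟩ := hver (C^[k] n) (hpos k n h3) hcon'
      rw [← Function.iterate_add_apply] at hj
      exact h5 ⟨_, hj⟩
    have hfin : {n : ℕ | 1 ≤ n ∧ (n : ℝ) ≤ N ∧
        ∀ k : ℕ, y < ((Pool.Agent.H499R2.ND.Cz^[k] n : ℕ) : ℝ)}.Finite := by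
      apply (Set.finite_Icc 1 N).subset
      rintro n ⟨h3, h4, -⟩
      exact ⟨h3, by exact_mod_cast h4⟩
    have h3 : ({n : ℕ | 1 ≤ n ∧ n ≤ N ∧ ¬ ∃ k, C^[k] n = 1}.ncard : ℝ) ≤
        ({n : ℕ | 1 ≤ n ∧ (n : ℝ) ≤ N ∧
          ∀ k : ℕ, y < ((Pool.Agent.H499R2.ND.Cz^[k] n : ℕ) : ℝ)}.ncard : ℝ) := by
      exact_mod_cast Set.ncard_le_ncard hsub hfin
    refine h3.trans (h2.trans (le_of_eq ?_))
    ring

end Pool.Agent.Results.MP_e43fce_nt.ExceptionDensity
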