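import Mathlib
import Pool.Agent.H547R3.Sub.Tqk2

set_option autoImplicit false

namespace Pool.Agent.Results.MP_e43fce_nt.LogManyPieces

/-- The Collatz function on the natural numbers. -/
def Col (n : ℕ) : ℕ := if n % 2 = 0 then n / 2 else 3 * n + 1

/-- The accelerated Collatz function on the natural numbers. -/
def T (n : ℕ) : ℕ := if n % 2 = 0 then n / 2 else (3 * n + 1) / 2

/-- The factor `w a, w (a+1), ..., w (b-1)` of the sequence `w` has period `π`. -/
def HasPeriod (w : ℕ → ℕ) (π a b : ℕ) : Prop := ∀ j, a ≤ j → j + π < b → w (j + π) = w j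

/-- The word `w 0, w 1, ..., w (n-1)` is a concatenation of `m` words (cut at `0 = t 0 ≤ t 1 ≤ ... ≤
t m = n`), each of which has some period `π` with `1 ≤ π ≤ ℓ`. -/
def Splits (w : ℕ → ℕ) (ℓ m n : ℕ) : Prop :=
  ∃ t : ℕ → ℕ, t 0 = 0 ∧ t m = n ∧ (∀ i < m, t i ≤ t (i + 1)) ∧
    ∀ i < m, ∃ π, 1 ≤ π ∧ π ≤ ℓ ∧ HasPeriod w π (t i) (t (i + 1))

open Pool.Agent.H547R3.Sub in
lemma T_eq : T = SP := by
  funext x; simp [T, SP]

open Pool.Agent.H547R3.Sub in
lemma dec_of_splits {x ℓ m n : ℕ} (h : Splits (fun i => T^[i] x % 2) ℓ m n) :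
    Dec (par (3 : ℕ) 1 x) ℓ m 0 n := by
  obtain ⟨t, h0, hm, hmono, hper⟩ := h
  refine ⟨t, h0, hm, hmono, fun i hi => ?_⟩
  obtain ⟨π, h1, h2, h3⟩ := hper i hi
  refine ⟨π, h1, h2, fun j hj1 hj2 => ?_⟩
  have h4 := h3 j hj1 hj2
  simp only [T_eq] at h4
  push_cast
  rw [par_nat, par_nat, h4]

/-- every value of the accelerated trajectory at time `i` is reached by the Collatz function at a
time at most `2 i` -/
lemma unaccel (n i : ℕ) : ∃ k ≤ 2 * i, Col^[k] n = T^[i] n := by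
  induction i with
  | zero => exact ⟨0, le_rfl, rfl⟩
  | succ i ih =>
    obtain ⟨k, hk, h⟩ := ih
    rw [Function.iterate_succ_apply']
    set y := T^[i] n with hy
    rcases Nat.mod_two_eq_zero_or_one y with h0 | h0
    · refine ⟨k + 1, by omega, ?_⟩
      rw [Function.iterate_succ_apply', h]
      simp [Col, T, h0]
    · refine ⟨k + 2, by omega, ?_⟩
      rw [Function.iterate_succ_apply', Function.iterate_succ_apply', h]
      have h1 : Col y = 3 * y + 1 := by simp [Col, h0]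
      have h2 : (3 * y + 1) % 2 = 0 := by omega
      rw [h1]
      simp [Col, T, h0, h2]

/-- asymptotics -/
lemma asym (A τ : ℝ) (hτ : 0 < τ) (hτ1 : τ ≤ 1) :
    ∃ N : ℕ, 1 ≤ N ∧ ∀ n : ℕ, N ≤ n →
      A * (1 + (n : ℝ) ^ (1 - τ) + (1 + Real.log (n + 1))) * (n : ℝ) ^ (τ / 2) < ((n / 2 : ℕ) : ℝ) := by
  have h1 : Filter.Tendsto (fun x : ℝ => A * (x ^ (-(τ / 2)) +
      ((2 + Real.log (x + 1)) / x ^ ((1 : ℝ) / 4)) * x ^ (τ / 2 - 3 / 4)) + 1 / x)
      Filter.atTop (nhds (A * (0 + 0 * 0) + 0)) := by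
    refine Filter.Tendsto.add (Filter.Tendsto.const_mul A (Filter.Tendsto.add ?_ ?_)) ?_
    · exact tendsto_rpow_neg_atTop (by positivity)
    · refine Filter.Tendsto.mul ?_ ?_
      · have h2 : (fun x : ℝ => 2 + Real.log (x + 1)) =o[Filter.atTop]
            fun x : ℝ => x ^ ((1 : ℝ) / 4) := by
          refine Asymptotics.IsLittleO.add ?_ ?_
          · refine Asymptotics.isLittleO_const_left.2 (Or.inr ?_)
            exact Filter.Tendsto.comp tendsto_norm_atTop_atTop (tendsto_rpow_atTop (by norm_num))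
          · have h3 : (fun x : ℝ => Real.log (x + 1)) =o[Filter.atTop]
                fun x : ℝ => (x + 1) ^ ((1 : ℝ) / 4) :=
              (isLittleO_log_rpow_atTop (by norm_num)).comp_tendsto
                (Filter.tendsto_atTop_add_const_right _ 1 Filter.tendsto_id)
            refine h3.trans_isBigO ?_
            refine Asymptotics.IsBigO.of_bound (2 ^ ((1 : ℝ) / 4)) ?_
            filter_upwards [Filter.eventually_ge_atTop (1 : ℝ)] with x hx
            rw [Real.norm_of_nonneg (by positivity), Real.norm_of_nonneg (by positivity),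
              ← Real.mul_rpow (by norm_num) (by linarith)]
            exact Real.rpow_le_rpow (by linarith) (by linarith) (by norm_num)
        exact h2.tendsto_div_nhds_zero
      · have : τ / 2 - 3 / 4 = -(3 / 4 - τ / 2) := by ring
        rw [this]
        exact tendsto_rpow_neg_atTop (by linarith)
    · exact (tendsto_const_nhds (x := (1 : ℝ))).div_atTop Filter.tendsto_id
  rw [show A * (0 + 0 * 0) + 0 = (0 : ℝ) by ring] at h1
  have h2 := (h1.eventually (gt_mem_nhds (show (0 : ℝ) < 1 / 2 by norm_num))).and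
    (Filter.eventually_ge_atTop (1 : ℝ))
  obtain ⟨X, hX⟩ := Filter.eventually_atTop.1 h2
  refine ⟨max 1 ⌈X⌉₊, le_max_left _ _, fun n hn => ?_⟩
  obtain ⟨h4, h5⟩ := hX n (Nat.ceil_le.1 ((le_max_right _ _).trans hn))
  have hn0 : (0 : ℝ) < n := by linarith
  have e1 : (n : ℝ) ^ (-(τ / 2)) * n = (n : ℝ) ^ (1 - τ) * (n : ℝ) ^ (τ / 2) := by
    rw [← Real.rpow_add hn0]
    nth_rewrite 2 [← Real.rpow_one (n : ℝ)]
    rw [← Real.rpow_add hn0]
    congr 1; ring
  have e2 : ((2 + Real.log ((n : ℝ) + 1)) / (n : ℝ) ^ ((1 : ℝ) / 4)) * (n : ℝ) ^ (τ / 2 - 3 / 4) * n =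
      (2 + Real.log ((n : ℝ) + 1)) * (n : ℝ) ^ (τ / 2) := by
    have h7 : (n : ℝ) ^ (τ / 2) = (n : ℝ) ^ (τ / 2 - 3 / 4) * n / (n : ℝ) ^ ((1 : ℝ) / 4) := by
      rw [eq_div_iff (by positivity), ← Real.rpow_add hn0]
      nth_rewrite 3 [← Real.rpow_one (n : ℝ)]
      rw [← Real.rpow_add hn0]
      congr 1; ring
    rw [h7]; field_simp
  have h9 := mul_lt_mul_of_pos_right h4 hn0
  have h10 : (A * ((n : ℝ) ^ (-(τ / 2)) + (2 + Real.log ((n : ℝ) + 1)) / (n : ℝ) ^ ((1 : ℝ) / 4) *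
      (n : ℝ) ^ (τ / 2 - 3 / 4)) + 1 / n) * n =
      A * ((n : ℝ) ^ (1 - τ) * (n : ℝ) ^ (τ / 2) +
        (2 + Real.log ((n : ℝ) + 1)) * (n : ℝ) ^ (τ / 2)) + 1 := by
    rw [← e1, ← e2]; field_simp
  rw [h10] at h9
  have h11 : ((n : ℝ) - 1) / 2 ≤ ((n / 2 : ℕ) : ℝ) := by
    have h12 : n ≤ 2 * (n / 2) + 1 := by omega
    have h13 : (n : ℝ) ≤ 2 * ((n / 2 : ℕ) : ℝ) + 1 := by exact_mod_cast h12
    linarith
  have h14 : A * (1 + (n : ℝ) ^ (1 - τ) + (1 + Real.log (n + 1))) * (n : ℝ) ^ (τ / 2) =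
      A * ((n : ℝ) ^ (1 - τ) * (n : ℝ) ^ (τ / 2) +
        (2 + Real.log ((n : ℝ) + 1)) * (n : ℝ) ^ (τ / 2)) := by ring
  rw [h14]
  linarith

open Pool.Agent.H547R3.Sub in
/-- For all `C` and `τ > 0` there is `N` such that for every `n ≥ N`: if the word of the first
`⌊n/2⌋` parities of the accelerated trajectory of `n` is a concatenation of at most `C log n` words
each having a period at most `n ^ (1 - τ)`, then `1` is reached within `n` steps of the Collatz
function, or the accelerated trajectory enters within `n/2` steps a cycle with a length between `149`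
and `n ^ (1 - τ)`. -/
theorem result (C τ : ℝ) (hτ : 0 < τ) :
    ∃ N : ℕ, ∀ n m ℓ : ℕ, N ≤ n → (m : ℝ) ≤ C * Real.log n → (ℓ : ℝ) ≤ (n : ℝ) ^ (1 - τ) →
      Splits (fun i => T^[i] n % 2) ℓ m (n / 2) →
      (∃ k ≤ n, Col^[k] n = 1) ∨
        ∃ j π, 149 ≤ π ∧ π ≤ ℓ ∧ j + π ≤ n / 2 ∧ T^[j + π] n = T^[j] n := by
  set τ' : ℝ := min τ 1 with hτ'
  have hτ'0 : 0 < τ' := by rw [hτ']; positivity
  have hτ'1 : τ' ≤ 1 := min_le_right _ _
  set C' : ℝ := max C 1 with hC'
  have hC'0 : 0 < C' := by rw [hC']; positivity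
  obtain ⟨A, hA, h⟩ := chainT2 (q := 3) Nat.prime_three (by norm_num) (2 * C' / τ') (by positivity)
  obtain ⟨N, hN1, hN⟩ := asym A τ' hτ'0 hτ'1
  refine ⟨N, fun n m ℓ hn hm hℓ hS => ?_⟩
  have hn1 : 1 ≤ n := hN1.trans hn
  have hnR : (1 : ℝ) ≤ n := by exact_mod_cast hn1
  have hn0 : (0 : ℝ) < n := by linarith
  have hlogn : 0 ≤ Real.log n := Real.log_nonneg hnR
  by_contra hcon
  push Not at hcon
  obtain ⟨hc1, hc2⟩ := hcon
  have h3 := h 1 (by norm_num) ℓ (n : ℤ) m 0 (n / 2) (dec_of_splits hS)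
    (fun j π _ h4 h5 h6 h7 => by
      have g5 := Tm_cast n (j + π)
      have g6 := Tm_cast n j
      push_cast at h7
      rw [g5, g6] at h7
      have g7 : SP^[j + π] n = SP^[j] n := by exact_mod_cast h7
      rcases Nat.lt_or_ge π 149 with h8 | h8
      · obtain ⟨i, hi, h9⟩ := reach_one hn1 h4 (by omega) g7
        obtain ⟨k, hk, h10⟩ := unaccel n i
        rw [T_eq, h9] at h10
        exact hc1 k (by omega) h10
      · exact hc2 j π h8 h5 h6 (by rw [T_eq]; exact g7))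
  simp only [Function.iterate_zero, id, Nat.cast_zero, sub_zero, Int.cast_one, abs_one,
    Int.cast_natCast, Nat.abs_cast] at h3
  have h8 := hN n hn
  have h9 : Real.exp (m / (2 * C' / τ')) ≤ (n : ℝ) ^ (τ' / 2) := by
    rw [Real.rpow_def_of_pos hn0]
    apply Real.exp_le_exp.2
    rw [div_le_iff₀ (by positivity)]
    have h10 : (m : ℝ) ≤ C' * Real.log n :=
      hm.trans (mul_le_mul_of_nonneg_right (le_max_left _ _) hlogn)
    calc (m : ℝ) ≤ C' * Real.log n := h10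
      _ = Real.log n * (τ' / 2) * (2 * C' / τ') := by field_simp
  have h11 : (ℓ : ℝ) ≤ (n : ℝ) ^ (1 - τ') :=
    hℓ.trans (Real.rpow_le_rpow_of_exponent_le hnR (by linarith [min_le_left τ 1]))
  have h12 : 0 ≤ Real.log ((n : ℝ) + 1) := Real.log_nonneg (by linarith)
  have h13 : (((n / 2 : ℕ) : ℕ) : ℝ) ≤ A * (1 + (n : ℝ) ^ (1 - τ') + (1 + Real.log (n + 1))) *
      (n : ℝ) ^ (τ' / 2) := by
    refine h3.trans ?_
    apply mul_le_mul _ h9 (Real.exp_pos _).le (by positivity)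
    apply mul_le_mul_of_nonneg_left _ hA.le
    linarith
  exact absurd h8 (not_lt.2 h13)

end Pool.Agent.Results.MP_e43fce_nt.LogManyPieces
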